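import Pool.Agent.MP_b50963_lc.PB6

set_option autoImplicit false

namespace Pool.Agent.Results.MP_b50963_lc.PolyBase

open Filter Pool.Agent.MP_b50963_lc Pool.Agent.MP_b50963_lc.PB Pool.Agent.MP_d9ba76_lc

/-- The smallest class of functions containing the identity and the constants that is closed under
sums, products and the maps from `f` to `p ^ f`, for the polynomials `p` with coefficients in the
natural numbers whose leading coefficient is nonzero and has all its prime factors below `N`. -/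
inductive Frag (N : ℕ) : (ℕ → ℕ) → Prop
  | var : Frag N fun z => z
  | const (c : ℕ) : Frag N fun _ => c
  | add {f g : ℕ → ℕ} : Frag N f → Frag N g → Frag N fun z => f z + g z
  | mul {f g : ℕ → ℕ} : Frag N f → Frag N g → Frag N fun z => f z * g z
  | pow (p : Polynomial ℕ) {f : ℕ → ℕ} : p.leadingCoeff ∈ Nat.smoothNumbers N → Frag N f →
      Frag N fun z => p.eval z ^ f z

theorem Frag.fr {N : ℕ} {f : ℕ → ℕ} (h : Frag N f) : Fr N fun x => f ⌊x⌋₊ := by
  induction h with
  | var => exact fr_xx.congr fl_ev.symm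
  | const c => exact fr_nat c
  | add _ _ a b => exact (a.add b).congr (Eventually.of_forall fun x => by simp)
  | mul _ _ a b => exact (a.mul b).congr (Eventually.of_forall fun x => by simp)
  | pow p hp _ a =>
    refine (a.rp hp).congr (nat_ev.mono ?_)
    rintro _ ⟨z, -, rfl⟩
    have : pv p z = (p.eval z : ℕ) := Polynomial.aeval_algebraMap_apply_eq_algebraMap_eval z p
    simp [rp, this]

theorem result :
    ∀ (N : ℕ) (E : ℕ → ℕ → ℕ),
      (∀ n z : ℕ, n % 5 = 0 → E n z = z) →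
      (∀ n z : ℕ, n % 5 = 1 → E n z = n / 5) →
      (∀ n z : ℕ, n % 5 = 2 →
        E n z = E (Nat.unpair (n / 5)).1 z + E (Nat.unpair (n / 5)).2 z) →
      (∀ n z : ℕ, n % 5 = 3 →
        E n z = E (Nat.unpair (n / 5)).1 z * E (Nat.unpair (n / 5)).2 z) →
      (∀ n z : ℕ, n % 5 = 4 →
        E n z = E (Nat.unpair (n / 5)).1 z ^ E (Nat.unpair (n / 5)).2 z) →
      ∃ D : ℕ × ℕ →. Bool, Partrec D ∧ ∀ s t : ℕ, Frag N (E s) → Frag N (E t) →
        ∃ b ∈ D (s, t), (b = true ↔ ∃ x : ℕ, ∀ z : ℕ, x < z → E s z < E t z) := by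
  intro N E h0 h1 h2 h3 h4
  obtain rfl : E = ev := by
    funext n z
    induction n using Nat.strong_induction_on with
    | _ n ih =>
      have a1 := Nat.unpair_left_le (n / 5)
      have a2 := Nat.unpair_right_le (n / 5)
      rw [ev]
      split_ifs with c0 c1 c2 c3
      · exact h0 n z c0
      · exact h1 n z c1
      · rw [h2 n z c2, ih _ (by omega), ih _ (by omega)]
      · rw [h3 n z c3, ih _ (by omega), ih _ (by omega)]
      · rw [h4 n z (by omega), ih _ (by omega), ih _ (by omega)]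
  have hev : ∀ P : ℕ → Prop, (∃ x : ℕ, ∀ z : ℕ, x < z → P z) ↔ ∀ᶠ z in atTop, P z := fun P =>
    ⟨fun ⟨x, h⟩ => (eventually_gt_atTop x).mono h, fun h =>
      (eventually_atTop.1 h).imp fun x k z hz => k z hz.le⟩
  simp only [hev]
  obtain ⟨A, hA, hR⟩ := exists_rel N
  have snd : ∀ s t, PN (pw 0 s, pw 0 t) → ∀ᶠ z in atTop, ev s z ≤ ev t z := fun s t h => by
    filter_upwards [eventually_map.1 h.nn.sound, eventually_gt_atTop 1] with z e hz
    refine (Nat.pow_le_pow_iff_right hz).1 ?_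
    simp [evr, rp, fl] at e
    exact_mod_cast e
  have cmp : ∀ s t, PB.NN (rp xx (evr t) - rp xx (evr s)) → PN (pw 0 s, pw 0 t) := fun s t h =>
    (h.congr (by simpa using (rp_congr fl_ev.symm .rfl).sub (rp_congr fl_ev.symm .rfl))).pn
  let u : ℕ → ℕ := fun s => ad (mu (cs 2) s) (cs 1)
  have cP : CE fun p : ℕ × ℕ => PN (pw 0 (u p.1), pw 0 (mu (cs 2) p.2)) :=
    (ce_pj hA).comp (by fun_prop)
  have cQ : CE fun p : ℕ × ℕ => PN (pw 0 (mu (cs 2) p.2), pw 0 (u p.1)) :=
    (ce_pj hA).comp (by fun_prop)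
  obtain ⟨D, d1, d2⟩ := Partrec.merge' ((re_of_ce cP).map (Computable.const true).to₂)
    ((re_of_ce cQ).map (Computable.const false).to₂)
  refine ⟨D, d1, fun s t hs ht => ?_⟩
  have d : (D (s, t)).Dom := by
    refine (d2 _).2.2 ?_
    rcases complete (((fr_nat 2).mul ht.fr)) (((fr_nat 2).mul hs.fr).add (fr_nat 1)) with k | k
    · exact Or.inl ⟨cmp _ _ (k.eq (by simp [u]; rfl)), trivial⟩
    · exact Or.inr ⟨cmp _ _ (k.eq (by simp [u]; rfl)), trivial⟩
  refine ⟨_, Part.get_mem d, ?_⟩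
  rcases (d2 _).1 _ (Part.get_mem d) with ⟨⟨k, _⟩, e⟩ | ⟨⟨k, _⟩, e⟩
  · exact iff_of_true e.symm ((snd _ _ k).mono fun z a => by simp [u] at a; omega)
  · refine iff_of_false (by rw [← e]; simp) fun h => ?_
    obtain ⟨z, a, b⟩ := ((snd _ _ k).and h).exists
    simp [u] at a
    omega

end Pool.Agent.Results.MP_b50963_lc.PolyBase
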