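import Pool.Agent.MP_b50963_lc.Mg.Struct

set_option autoImplicit false

namespace Pool.Agent.Results.MP_b50963_lc.Segment

open Filter Pool.Agent.MP_b50963_lc Pool.Agent.MP_d9ba76_lc

theorem result :
    ∀ E : ℕ → ℕ → ℕ,
      (∀ n z : ℕ, n % 5 = 0 → E n z = z) →
      (∀ n z : ℕ, n % 5 = 1 → E n z = n / 5) →
      (∀ n z : ℕ, n % 5 = 2 →
        E n z = E (Nat.unpair (n / 5)).1 z + E (Nat.unpair (n / 5)).2 z) →
      (∀ n z : ℕ, n % 5 = 3 →
        E n z = E (Nat.unpair (n / 5)).1 z * E (Nat.unpair (n / 5)).2 z) →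
      (∀ n z : ℕ, n % 5 = 4 →
        E n z = E (Nat.unpair (n / 5)).1 z ^ E (Nat.unpair (n / 5)).2 z) →
      ComputablePred (fun p : ℕ × ℕ =>
        (∃ x : ℕ, ∀ z : ℕ, x < z → E p.1 z < z ^ (z * z + z)) ∧
          ∃ x : ℕ, ∀ z : ℕ, x < z → E p.1 z < E p.2 z) := by
  intro E h0 h1 h2 h3 h4
  have hE : ∀ n z, E n z = ev n z := by
    intro n z
    induction n using Nat.strong_induction_on with
    | _ n ih =>
      have a1 := Nat.unpair_left_le (n / 5)
      have a2 := Nat.unpair_right_le (n / 5)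
      rw [ev]
      split_ifs with c0 c1 c2 c3
      · exact h0 n z c0
      · exact h1 n z c1
      · rw [h2 n z c2, ih _ (by omega), ih _ (by omega)]
      · rw [h3 n z c3, ih _ (by omega), ih _ (by omega)]
      · rw [h4 n z (by omega), ih _ (by omega), ih _ (by omega)]
  have hev : ∀ P : ℕ → Prop, (∃ x : ℕ, ∀ z : ℕ, x < z → P z) ↔ ∀ᶠ z in atTop, P z := fun P =>
    ⟨fun ⟨x, h⟩ => (eventually_gt_atTop x).mono h, fun h =>
      (eventually_atTop.1 h).imp fun x k z hz => k z hz.le⟩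
  simp only [hE, hev]
  let b := pw 0 (ad (mu 0 0) 0)
  have hb : ∀ z, ev b z = z ^ (z * z + z) := fun z => by simp [b]
  have hB : B2 =ᶠ[Nf] evr b := nat_ev.mono (by
    rintro _ ⟨z, -, rfl⟩
    simp [B2, B1, rp, evr, hb, pow_add, pow_mul, mul_pow, mul_comm])
  have snd : ∀ s t, Pr (s, t) → ∀ᶠ z in atTop, ev s z ≤ ev t z := fun s t h =>
    (eventually_map.1 h.sound).mono fun z e => by simpa [evr] using e
  let P : ℕ × ℕ → Prop := fun p =>
    Pr (ad p.1 (cs 1), b) ∧ Pr (ad (mu (cs 2) p.1) (cs 1), mu (cs 2) p.2)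
  let Q : ℕ × ℕ → Prop := fun p => Pr (b, p.1) ∨ Pr (mu (cs 2) p.2, ad (mu (cs 2) p.1) (cs 1))
  have cP : CE P := (ce_pr.comp (by fun_prop)).and (ce_pr.comp (by fun_prop))
  have cQ : CE Q := (ce_pr.comp (by fun_prop)).or (ce_pr.comp (by fun_prop))
  have sP : ∀ p, P p → (∀ᶠ z in atTop, ev p.1 z < z ^ (z * z + z)) ∧
      ∀ᶠ z in atTop, ev p.1 z < ev p.2 z := fun p h =>
    ⟨(snd _ _ h.1).mono fun z e => by rw [hb] at e; simpa using e,
      (snd _ _ h.2).mono fun z e => by simp at e; omega⟩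
  have sQ : ∀ p, Q p → ¬ ((∀ᶠ z in atTop, ev p.1 z < z ^ (z * z + z)) ∧
      ∀ᶠ z in atTop, ev p.1 z < ev p.2 z) := by
    rintro p (h | h) ⟨k1, k2⟩
    · obtain ⟨z, e1, e2⟩ := ((snd _ _ h).and k1).exists
      rw [hb] at e1
      omega
    · obtain ⟨z, e1, e2⟩ := ((snd _ _ h).and k2).exists
      simp at e1
      omega
  have tot : ∀ p, P p ∨ Q p := fun p => by
    rcases complete (Sk.evr p.1) (Sk.evr p.2) with ⟨k1, k2⟩ | k | k
    · exact Or.inl ⟨NN.pr (k1.congr (by simpa [sub_sub] using hB.sub .rfl)),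
        NN.pr (k2.eq (by simp [sub_sub]))⟩
    · exact Or.inr (Or.inl (NN.pr (k.congr (.sub .rfl hB))))
    · exact Or.inr (Or.inr (NN.pr (k.eq (by simp))))
  exact ComputablePred.computable_iff_re_compl_re'.2
    ⟨(re_of_ce cP).of_eq fun p => ⟨sP p, fun h => (tot p).resolve_right fun k => sQ p k h⟩,
      (re_of_ce cQ).of_eq fun p => ⟨sQ p, fun h => (tot p).resolve_left fun k => h (sP p k)⟩⟩

end Pool.Agent.Results.MP_b50963_lc.Segment
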